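import Pool.Agent.V11101.Ext2

/-!
# Absolute p-extendability of doubling spaces as p tends to 0
-/

open scoped NNReal ENNReal Topology
open Filter Pool.Agent.V11101.Ext

namespace Pool.Agent.Results.MP_d7144b_an.DoublingInfinite

/-- `λ_A ≤ n`: every closed ball of radius `2r > 0` is covered by `n` closed balls of radius
`r`. -/
def DoublingWith (n : ℕ) (A : Type) [MetricSpace A] : Prop :=
  ∀ (x : A) (r : ℝ), 0 < r → ∃ S : Finset A, S.card ≤ n ∧
    Metric.closedBall x (2 * r) ⊆ ⋃ y ∈ S, Metric.closedBall y r

/-- A bump function. -/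
noncomputable def bump {M : Type} [MetricSpace M] (a x : M) : ℝ := max 0 (1 - dist x a)

theorem bump_self {M : Type} [MetricSpace M] (a : M) : bump a a = 1 := by simp [bump]

theorem bump_far {M : Type} [MetricSpace M] (a x : M) (h : 1 ≤ dist x a) : bump a x = 0 := by
  unfold bump
  exact max_eq_left (by linarith)

theorem bump_lip {M : Type} [MetricSpace M] (a x y : M) : |bump a x - bump a y| ≤ dist x y := by
  unfold bump
  have h1 := abs_max_sub_max_le_abs (1 - dist x a) (1 - dist y a) 0
  rw [max_comm 0, max_comm 0]
  refine h1.trans ?_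
  have h2 : (1 - dist x a) - (1 - dist y a) = dist y a - dist x a := by ring
  rw [h2, abs_sub_comm]
  exact abs_dist_sub_le x y a

theorem dist_le_two (x y : Option Bool) : (metN (D := 2) two_pos).dist x y ≤ 2 := by
  have h : (metN (D := 2) two_pos).dist x y = dist (ptN 2 x) (ptN 2 y) := rfl
  rw [h, Prod.dist_eq]
  rcases x with _ | x <;> rcases y with _ | y
  · simp
  · refine max_le ?_ ?_
    · cases y <;> simp [ptN, Real.dist_eq] <;> norm_num [abs_le]
    · simp [ptN, Real.dist_eq]
  · refine max_le ?_ ?_
    · cases x <;> simp [ptN, Real.dist_eq] <;> norm_num [abs_le]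
    · simp [ptN, Real.dist_eq]
  · refine max_le ?_ ?_
    · cases x <;> cases y <;> simp [ptN]
    · simp [ptN]

theorem one_le_dist (x y : Option Bool) (hxy : x ≠ y) :
    1 ≤ (metN (D := 2) two_pos).dist x y := by
  have h : (metN (D := 2) two_pos).dist x y = dist (ptN 2 x) (ptN 2 y) := rfl
  rw [h, Prod.dist_eq]
  rcases x with _ | x <;> rcases y with _ | y
  · exact absurd rfl hxy
  · exact le_trans (by simp [ptN, Real.dist_eq]) (le_max_right _ _)
  · exact le_trans (by simp [ptN, Real.dist_eq]) (le_max_right _ _)
  · refine le_trans ?_ (le_max_left _ _)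
    cases x <;> cases y
    · exact absurd rfl hxy
    · simp [ptN]
    · simp [ptN]
    · exact absurd rfl hxy

/-- The absolute extendability constant (`p = 1`) of the three point space is finite. -/
theorem aeC_one_lt_top : @aeC 1 (Option Bool) (metN (D := 2) two_pos) < ⊤ := by
  let _ := metN (D := 2) two_pos
  refine lt_of_le_of_lt (b := ENNReal.ofReal 4) ?_ ENNReal.ofReal_lt_top
  unfold aeC
  refine iSup_le fun M => iSup_le fun _ => iSup_le fun ι => iSup_le fun hι => ?_
  refine sInf_le ⟨by simp, ?_⟩
  intro Z _ _ N hN f hf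
  have hN0 : N 0 = 0 := by
    have := hN.smul 0 0
    simpa using this
  have hNadd : ∀ x y, N (x + y) ≤ N x + N y := by
    intro x y
    have := hN.add x y
    simpa [Real.rpow_one] using this
  -- values on the three points
  let v : Option Bool → Z := fun x => f ⟨ι x, x, rfl⟩
  set K := (lipC N f).toReal with hK
  have hK0 : 0 ≤ K := ENNReal.toReal_nonneg
  have hfK : lipC N f = ENNReal.ofReal K := (ENNReal.ofReal_toReal hf.ne).symm
  have hv : ∀ x y, N (v x - v y) ≤ 2 * K := by
    intro x y
    rcases eq_or_ne x y with rfl | hxy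
    · rw [sub_self, hN0]; positivity
    · have hne : (⟨ι x, x, rfl⟩ : Set.range ι) ≠ ⟨ι y, y, rfl⟩ := fun h =>
        hxy (hι.injective (congrArg Subtype.val h))
      have h1 := le_lipC hK0 hfK.le (⟨ι x, x, rfl⟩ : Set.range ι) ⟨ι y, y, rfl⟩ hne
      have h2 : dist (⟨ι x, x, rfl⟩ : Set.range ι) ⟨ι y, y, rfl⟩ = dist x y := hι.dist_eq x y
      rw [h2] at h1
      have h3 : dist x y ≤ 2 := dist_le_two x y
      calc N (v x - v y) ≤ K * dist x y := h1
        _ ≤ K * 2 := mul_le_mul_of_nonneg_left h3 hK0
        _ = 2 * K := mul_comm _ _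
  have hfar : ∀ x y : Option Bool, x ≠ y → 1 ≤ dist (ι x) (ι y) := by
    intro x y hxy
    rw [hι.dist_eq]
    exact one_le_dist x y hxy
  let g : M → Z := fun x => v none + (bump (ι (some false)) x • (v (some false) - v none) +
    bump (ι (some true)) x • (v (some true) - v none))
  refine ⟨g, ?_, ?_⟩
  · rintro ⟨_, x, rfl⟩
    show v none + (bump (ι (some false)) (ι x) • (v (some false) - v none) +
      bump (ι (some true)) (ι x) • (v (some true) - v none)) = v x
    rcases x with _ | b
    · rw [bump_far _ _ (hfar _ _ (by simp)), bump_far _ _ (hfar _ _ (by simp))]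
      simp
    · cases b
      · rw [bump_self, bump_far _ _ (hfar _ _ (by simp))]
        simp
      · rw [bump_self, bump_far _ _ (hfar _ _ (by simp))]
        simp
  · rw [hfK, ← ENNReal.ofReal_mul (by norm_num)]
    refine lipC_le fun x y hxy => ?_
    have h1 : g x - g y = (bump (ι (some false)) x - bump (ι (some false)) y) •
        (v (some false) - v none) + (bump (ι (some true)) x - bump (ι (some true)) y) •
        (v (some true) - v none) := by
      simp only [g, sub_smul]
      abel
    rw [h1]
    refine (hNadd _ _).trans ?_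
    rw [hN.smul, hN.smul]
    have e1 := bump_lip (ι (some false)) x y
    have e2 := bump_lip (ι (some true)) x y
    have e3 := hv (some false) none
    have e4 := hv (some true) none
    have e5 := mul_le_mul e1 e3 (hN.nonneg _) dist_nonneg
    have e6 := mul_le_mul e2 e4 (hN.nonneg _) dist_nonneg
    linarith

theorem doubling_two : @DoublingWith 2 (Option Bool) (metN (D := 2) two_pos) := by
  classical
  let _ := metN (D := 2) two_pos
  intro x r hr
  rcases lt_or_ge r 1 with h1 | h1
  · -- the ball has at most two points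
    rcases x with _ | b
    · refine ⟨{none}, by simp, ?_⟩
      intro y hy
      rw [Metric.mem_closedBall] at hy
      rcases y with _ | c
      · simp only [Finset.mem_singleton, Set.iUnion_iUnion_eq_left, Metric.mem_closedBall,
          dist_self]
        exact hr.le
      · exfalso
        have h2 : dist (some c) (none : Option Bool) = dist (ptN 2 (some c)) (ptN 2 none) := rfl
        rw [h2, Prod.dist_eq] at hy
        have h3 : (2:ℝ) ≤ max (dist (ptN 2 (some c)).1 (ptN 2 none).1)
            (dist (ptN 2 (some c)).2 (ptN 2 none).2) :=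
          le_trans (by simp [ptN]) (le_max_right _ _)
        linarith
    · refine ⟨{some false, some true}, Finset.card_le_two, ?_⟩
      intro y hy
      rw [Metric.mem_closedBall] at hy
      rcases y with _ | c
      · exfalso
        have h2 : dist (none : Option Bool) (some b) = dist (ptN 2 none) (ptN 2 (some b)) := rfl
        rw [h2, Prod.dist_eq] at hy
        have h3 : (2:ℝ) ≤ max (dist (ptN 2 none).1 (ptN 2 (some b)).1)
            (dist (ptN 2 none).2 (ptN 2 (some b)).2) :=
          le_trans (by simp [ptN]) (le_max_right _ _)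
        linarith
      · simp only [Set.mem_iUnion]
        refine ⟨some c, by cases c <;> simp, ?_⟩
        rw [Metric.mem_closedBall, dist_self]
        exact hr.le
  · refine ⟨{none, some false}, Finset.card_le_two, ?_⟩
    intro y _
    simp only [Set.mem_iUnion]
    rcases y with _ | c
    · refine ⟨none, by simp, ?_⟩
      rw [Metric.mem_closedBall, dist_self]
      exact hr.le
    · refine ⟨some false, by simp, ?_⟩
      rw [Metric.mem_closedBall]
      refine le_trans ?_ h1
      have h2 : dist (some c) (some false : Option Bool) =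
        dist (ptN 2 (some c)) (ptN 2 (some false)) := rfl
      rw [h2, Prod.dist_eq]
      refine max_le ?_ ?_
      · cases c <;> simp [ptN]
      · simp [ptN]

/-- For every `n ≥ 2` the supremum of the limits, as `p → 0`, of `ae_p(A)/ae_1(A)`, over the
doubling metric spaces with `λ_A ≤ n` is infinite. -/
theorem result (n : ℕ) (hn : 2 ≤ n) :
    sSup {L : ℝ≥0∞ | ∃ (A : Type) (_ : MetricSpace A), Nonempty A ∧ DoublingWith n A ∧
      aeC 1 A < ⊤ ∧ Tendsto (fun p : ℝ => aeC p A / aeC 1 A) (𝓝[>] 0) (𝓝 L)} = ⊤ := by
  refine top_le_iff.mp (le_sSup ⟨Option Bool, metN (D := 2) two_pos, inferInstance, ?_,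
    aeC_one_lt_top, ?_⟩)
  · intro x r hr
    obtain ⟨S, hS, h⟩ := doubling_two x r hr
    exact ⟨S, hS.trans hn, h⟩
  · have h1 := aeC_tendsto (D := 2) two_pos one_le_two
    have h2 := ENNReal.Tendsto.div_const
      (b := @aeC 1 (Option Bool) (metN (D := 2) two_pos)) h1 (Or.inl ENNReal.top_ne_zero)
    rwa [ENNReal.top_div_of_ne_top aeC_one_lt_top.ne] at h2

end Pool.Agent.Results.MP_d7144b_an.DoublingInfinite
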